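import Pool.Agent.Helper656.Her.Cubic

open Polynomial

/-- Herstein's conjecture holds for a division ring `D` (centre `Z`) in which every multiplicative
commutator has a positive power `c ^ n` in `Z` such that every prime `p` dividing `n` either is the
characteristic of `D` or has the property that the `p`-th cyclotomic polynomial has a factor of
degree 1, 2 or 3 over `Z`. -/
theorem Pool.Agent.Results.MP_8ed1d4_al.CyclotomicDegreeThree.result.{u}
    (D : Type u) [DivisionRing D]
    (H : ∀ x y : D, x ≠ 0 → y ≠ 0 →
      ∃ n : ℕ, 0 < n ∧ (x * y * x⁻¹ * y⁻¹) ^ n ∈ Subring.center D ∧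
        ∀ p : ℕ, p.Prime → p ∣ n → (p : D) = 0 ∨
          ∃ g : (Subring.center D)[X], 1 ≤ g.natDegree ∧ g.natDegree ≤ 3 ∧
            g ∣ cyclotomic p (Subring.center D)) :
    ∀ a b : D, a * b = b * a :=
  Pool.Agent.Helper656.Her.main3 D H
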